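import Pool.Agent.H6.FN.TargetsG

/-!
# MP_7500ea_al, board fcn_modules, row KSN
-/

open scoped Classical

namespace Pool.Agent.H66.FN

open FI

theorem pf_KSN : T_KSN := by
  intro α _
  letI : Fintype α := Fintype.ofFinite α
  have hinj : Function.Injective
      (fun c : ConjClasses (Equiv.Perm α) =>
        (Quotient.liftOn c (fun g : Equiv.Perm α => g.partition)
          (fun a b h => Equiv.Perm.partition_eq_of_isConj.1 h) :
          (Fintype.card α).Partition)) := by
    intro a b
    refine Quotient.inductionOn₂ a b ?_
    intro g h hgh
    exact Quotient.sound (Equiv.Perm.partition_eq_of_isConj.2 hgh)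
  have h1 : Nat.card (ConjClasses (Equiv.Perm α)) ≤ Nat.card (Fintype.card α).Partition :=
    Nat.card_le_card_of_injective _ hinj
  have h2 : Nat.card (Fintype.card α).Partition ≤ Nat.card (Composition (Fintype.card α)) :=
    Nat.card_le_card_of_surjective _ (Nat.Partition.ofComposition_surj (n := Fintype.card α))
  have h3 : Nat.card (Composition (Fintype.card α)) = 2 ^ (Nat.card α - 1) := by
    rw [Nat.card_eq_fintype_card, composition_card, Nat.card_eq_fintype_card]
  exact (h1.trans h2).trans_eq h3

end Pool.Agent.H66.FN
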