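import Pool.Agent.H6.FN.TargetsG

/-!
# MP_7500ea_al, board fcn_modules, rows NUA and PRO
-/

open scoped Classical

namespace Pool.Agent.H66.FN

open FI MulAction

private theorem log_le_aux (y : ℝ) (hy : 0 < y) : Real.log y ≤ 3 / 8 * y := by
  have he : (8 : ℝ) / 3 ≤ Real.exp 1 := by
    have := Real.exp_one_gt_d9
    linarith
  have hpos : 0 < Real.exp 1 := Real.exp_pos 1
  have h1 : Real.log (y / Real.exp 1) ≤ y / Real.exp 1 - 1 :=
    Real.log_le_sub_one_of_pos (div_pos hy hpos)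
  rw [Real.log_div hy.ne' hpos.ne', Real.log_exp] at h1
  have h2 : y / Real.exp 1 ≤ 3 / 8 * y := by
    rw [div_le_iff₀ hpos]
    nlinarith
  linarith

theorem pf_NUA : T_NUA := by
  intro n hn t ht
  have hx : (1 : ℝ) ≤ n := by exact_mod_cast hn
  have hx0 : (0 : ℝ) < n := by linarith
  unfold LF
  set x : ℝ := (n : ℝ) with hxdef
  set L : ℝ := Real.log x with hL
  set a : ℝ := x ^ ((1 : ℝ) / 8) with ha
  set b : ℝ := x ^ ((1 : ℝ) / 4) with hb
  set s : ℝ := Real.sqrt x with hs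
  have hL0 : 0 ≤ L := Real.log_nonneg hx
  have ha0 : 0 < a := Real.rpow_pos_of_pos hx0 _
  have hb0 : 0 < b := Real.rpow_pos_of_pos hx0 _
  have hs0 : 0 < s := Real.sqrt_pos.2 hx0
  have haa : a * a = b := by
    rw [ha, hb, ← Real.rpow_add hx0]
    norm_num
  have hbb : b * b = s := by
    rw [hb, hs, Real.sqrt_eq_rpow, ← Real.rpow_add hx0]
    norm_num
  have hss : s * s = x := Real.mul_self_sqrt hx0.le
  have hc : x ^ ((3 : ℝ) / 4) * b = x := by
    rw [hb, ← Real.rpow_add hx0]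
    norm_num
  have hc0 : 0 < x ^ ((3 : ℝ) / 4) := Real.rpow_pos_of_pos hx0 _
  have hLa : L ≤ 3 * a := by
    have h := log_le_aux a ha0
    rw [ha, Real.log_rpow hx0] at h
    rw [ha]
    linarith
  have hLb : L ≤ 3 / 2 * b := by
    have h := log_le_aux b hb0
    rw [hb, Real.log_rpow hx0] at h
    rw [hb]
    linarith
  have hLs : L ≤ 3 / 4 * s := by
    have h := log_le_aux s hs0
    rw [hs, Real.log_sqrt hx0.le] at h
    rw [hs]
    linarith
  have hLx : L ≤ 3 / 8 * x := log_le_aux x hx0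
  have hL2b : L ^ 2 ≤ 9 * b := by
    rw [← haa]
    nlinarith
  have hL2s : L ^ 2 ≤ 9 / 4 * s := by
    rw [← hbb]
    nlinarith
  have e1 : t * L ≤ 62 * (s + 1) * L := mul_le_mul_of_nonneg_right ht hL0
  have e2 : 62 * (s + 1) * L ≤ 70 * x := by
    have : s * L ≤ 3 / 4 * x := by
      rw [← hss]
      nlinarith
    nlinarith
  have e3 : 7 * x ^ ((3 : ℝ) / 4) * L ^ 2 ≤ 63 * x := by
    have h : x ^ ((3 : ℝ) / 4) * L ^ 2 ≤ x ^ ((3 : ℝ) / 4) * (9 * b) :=
      mul_le_mul_of_nonneg_left hL2b hc0.le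
    nlinarith
  have e4 : 30 * s * L ^ 2 ≤ 68 * x := by
    have h : s * L ^ 2 ≤ s * (9 / 4 * s) := mul_le_mul_of_nonneg_left hL2s hs0.le
    nlinarith
  linarith

theorem pf_PRO (CHN : T_CHN) (MDG : T_MDG) (MTR : T_MTR) (NUA : T_NUA) : T_PRO := by
  intro α _ _ G hG hA
  rcases Nat.lt_or_ge (Nat.card α) 27 with hlt | hge
  · have h1 : Nat.card G ≤ Nat.card (Equiv.Perm α) :=
      Nat.card_le_card_of_injective _ Subtype.val_injective
    rw [Nat.card_perm] at h1
    have h2 : Nat.card G ≤ (Nat.card α) ^ (Nat.card α) := h1.trans (Nat.factorial_le_pow _)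
    have h3 : (Nat.card G : ℝ) ≤ (Nat.card α : ℝ) ^ (Nat.card α) := by exact_mod_cast h2
    have h4 : (Nat.card α : ℝ) ≤ Real.exp 250 := by
      have h5 : (250 : ℝ) + 1 ≤ Real.exp 250 := Real.add_one_le_exp _
      have h6 : (Nat.card α : ℝ) ≤ 27 := by exact_mod_cast hlt.le
      linarith
    calc (Nat.card G : ℝ) ≤ (Nat.card α : ℝ) ^ (Nat.card α) := h3
      _ ≤ (Real.exp 250) ^ (Nat.card α) := pow_le_pow_left₀ (by positivity) h4 _
      _ = Real.exp (250 * Nat.card α) := by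
        rw [← Real.exp_nat_mul]
        ring_nf
  · haveI : Nonempty α := by
      by_contra hne
      rw [not_nonempty_iff] at hne
      rw [Nat.card_of_isEmpty] at hge
      omega
    have hno3 : ∀ g ∈ G, ¬ g.IsThreeCycle := fun g hg h3 =>
      hA (Equiv.Perm.alternatingGroup_le_of_isPreprimitive_of_isThreeCycle_mem hG h3 hg)
    obtain ⟨t, ht, hT, hcard⟩ := CHN G α hG
    have htb : (t : ℝ) ≤ 62 * (Real.sqrt (Nat.card α) + 1) := by
      rcases Nat.lt_or_ge t 2 with h | h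
      · have h1 : (t : ℝ) ≤ 1 := by exact_mod_cast Nat.lt_succ_iff.1 h
        have h2 : 0 ≤ Real.sqrt (Nat.card α) := Real.sqrt_nonneg _
        linarith
      · have h2 : IsMultiplyPretransitive G α 2 := isMultiplyPretransitive_of_le h ht
        exact MTR α G (MDG α G h2 hno3 hge) t ht hT
    have hN := NUA (Nat.card α) (by omega) t htb
    exact hcard.trans (Real.exp_le_exp.2 hN)

end Pool.Agent.H66.FN
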